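import Pool.Agent.R184CA.C0Rad

/-! MP_0d518c_an, Q1: a separable Banach space `X` such that `L(X)` has exactly countably
infinitely many closed ideals. -/

namespace Pool.Agent.Results.MP_0d518c_an.AlephNull

open Pool.Agent.R184CA

/-- The set of the closed two-sided ideals of the topological ring `A` has cardinality `ℵ₀`. -/
def ExactlyCountablyManyClosedIdeals (A : Type) [Ring A] [TopologicalSpace A] : Prop :=
  Cardinal.mk {I : TwoSidedIdeal A // IsClosed (I : Set A)} = Cardinal.aleph0

/-- The closed two-sided ideals of the topological ring `A` form a chain. -/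
def ClosedIdealsFormChain (A : Type) [Ring A] [TopologicalSpace A] : Prop :=
  ∀ I J : TwoSidedIdeal A, IsClosed (I : Set A) → IsClosed (J : Set A) → I ≤ J ∨ J ≤ I

/-- Over `ℝ` and over `ℂ` there is a separable Banach space `X` such that the set of the closed
two-sided ideals of `L(X)` has cardinality `ℵ₀`; moreover these ideals form a chain. -/
theorem result (𝕜 : Type) [RCLike 𝕜] :
    ∃ (X : Type) (_ : NormedAddCommGroup X) (_ : NormedSpace 𝕜 X),
      CompleteSpace X ∧ TopologicalSpace.SeparableSpace X ∧
      ExactlyCountablyManyClosedIdeals (X →L[𝕜] X) ∧ ClosedIdealsFormChain (X →L[𝕜] X) :=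
  (Rad.D 𝕜).exists_aleph

end Pool.Agent.Results.MP_0d518c_an.AlephNull
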